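import Pool.Agent.BE01.StmtsS

/-!
# Squad BE01 (MP_be01ff_an): module PWM, the inequality of the power means
-/

namespace Pool.Agent.Helper89BE01PWM

open Pool.Agent.BE01
open Set Filter Topology MeasureTheory
open scoped InnerProductSpace ENNReal

theorem pwm : PwmStmt := by
  intro r0 r1 μ _ p x
  rcases eq_or_ne μ 0 with hμ | hμ
  · subst hμ
    simp
  have hV : 0 < μ.real univ := by
    have : NeZero μ := ⟨hμ⟩
    exact measureReal_univ_pos
  have hc : Continuous fun s => x s ^ 2 := by fun_prop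
  have hi : Integrable (fun s => x s ^ 2) μ := by
    obtain ⟨C, hC⟩ := (isCompact_univ (X := Ic r0 r1)).exists_bound_of_continuousOn hc.continuousOn
    exact Integrable.of_bound hc.aestronglyMeasurable C
      (Eventually.of_forall fun s => hC s (mem_univ s))
  have hc2 : Continuous fun s => (x s ^ 2) ^ (p + 1) := by fun_prop
  have hi2 : Integrable (fun s => (x s ^ 2) ^ (p + 1)) μ := by
    obtain ⟨C, hC⟩ := (isCompact_univ (X := Ic r0 r1)).exists_bound_of_continuousOn
      hc2.continuousOn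
    exact Integrable.of_bound hc2.aestronglyMeasurable C
      (Eventually.of_forall fun s => hC s (mem_univ s))
  have : NeZero μ := ⟨hμ⟩
  have hJ := (convexOn_pow (𝕜 := ℝ) (p + 1)).map_average_le
    (continuous_pow (p + 1)).continuousOn isClosed_Ici
    (Eventually.of_forall fun s => (sq_nonneg (x s) : x s ^ 2 ∈ Ici (0 : ℝ))) hi hi2
  rw [average_eq, average_eq, smul_eq_mul, smul_eq_mul, mul_pow] at hJ
  have e1 : (∫ s, x s ^ (2 * p + 2) ∂μ) = ∫ s, (x s ^ 2) ^ (p + 1) ∂μ := by
    refine integral_congr_ae (Eventually.of_forall fun s => ?_)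
    simp only [← pow_mul]
    congr 1
  rw [e1]
  have h3 := mul_le_mul_of_nonneg_left hJ (pow_nonneg hV.le (p + 1))
  calc (∫ s, x s ^ 2 ∂μ) ^ (p + 1)
      = μ.real univ ^ (p + 1) * ((μ.real univ)⁻¹ ^ (p + 1) * (∫ s, x s ^ 2 ∂μ) ^ (p + 1)) := by
        rw [← mul_assoc, ← mul_pow, mul_inv_cancel₀ hV.ne', one_pow, one_mul]
    _ ≤ μ.real univ ^ (p + 1) * ((μ.real univ)⁻¹ * ∫ s, (x s ^ 2) ^ (p + 1) ∂μ) := h3
    _ = μ.real univ ^ p * ∫ s, (x s ^ 2) ^ (p + 1) ∂μ := by
        rw [pow_succ]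
        field_simp

end Pool.Agent.Helper89BE01PWM
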