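import Pool.Agent.BE01.StmtsS

/-!
# Squad BE01 (MP_be01ff_an): modules SPS and SPB, radial eigenfunctions
-/

namespace Pool.Agent.Helper89BE01SPS

open Pool.Agent.BE01
open Set Filter Topology MeasureTheory
open scoped InnerProductSpace ENNReal

variable {d : ℕ} {r0 r1 : ℝ} {h : r0 ≤ r1}

/-- A nonzero eigenfunction gives a solution of the differential equation which does not vanish
identically. -/
theorem exists_ne {SX : Lp ℝ 2 (nu d h) →L[ℝ] C(Ic r0 r1, ℝ)} {ω β : ℝ} {φ : Lp ℝ 2 (nu d h)}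
    {w : ℝ → ℝ} (hφ0 : φ ≠ 0) (hφ : φ =ᵐ[nu d h] (fun r => ω ^ 2 * SX φ r)) (h0 : 0 < r0)
    (hw : ∀ r : Ic r0 r1, w r = (r : ℝ) ^ β * (ω ^ 2 * SX φ r)) :
    ∃ r ∈ Icc r0 r1, w r ≠ 0 := by
  by_contra hcon
  push Not at hcon
  apply hφ0
  rw [Lp.eq_zero_iff_ae_eq_zero]
  filter_upwards [hφ] with r hr
  have h1 := hcon r r.2
  rw [hw r] at h1
  have h2 : 0 < (r : ℝ) ^ β := Real.rpow_pos_of_pos (h0.trans_le r.2.1) β
  have h3 : ω ^ 2 * SX φ r = 0 := by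
    rcases mul_eq_zero.1 h1 with h4 | h4
    · exact absurd h4 h2.ne'
    · exact h4
  rw [hr, h3]
  rfl

theorem sps (EIG : EigStmt) (UNI : UniStmt) (PRU : PruStmt) : SpsStmt := by
  intro d r0 r1 h D SX ω φ u hd h0 h1 hO hω hφ0 hφ hu
  obtain ⟨w, w', hw, hw1, hwe⟩ := EIG d r0 r1 h D SX (ω ^ 2) φ hd h0 h1 hO hφ
  obtain ⟨W, W', hW, hW1, hWe⟩ := EIG d r0 r1 h D SX (ω ^ 2) u hd h0 h1 hO hu
  obtain ⟨θ, ρ, hP, hv⟩ := PRU (((d : ℝ) - 1) * (d - 3) / 4) ω r0 r1 h0 h1 hω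
  have hne : w' r0 ≠ 0 := by
    intro hz
    obtain ⟨r, hr, hrw⟩ := exists_ne hφ0 hφ h0 hwe
    have h2 := UNI _ _ r0 r1 w w' _ _ h0 h1 hw hv r hr
    simp only [hP.θ0, hP.ρ0, Real.cos_zero, mul_one, hz, zero_mul] at h2
    rcases mul_eq_zero.1 h2 with h3 | h3
    · exact hω.ne' h3
    · exact hrw h3
  refine ⟨W' r0 / w' r0, ?_⟩
  apply Lp.ext
  have h3 := Lp.coeFn_smul (W' r0 / w' r0) φ
  filter_upwards [hφ, hu, h3] with r e1 e2 e3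
  rw [e3, Pi.smul_apply, smul_eq_mul, e1, e2]
  have h4 := UNI _ _ r0 r1 w w' W W' h0 h1 hw hW r r.2
  rw [hwe r, hWe r] at h4
  have h5 : 0 < (r : ℝ) ^ (((d : ℝ) - 1) / 2) := Real.rpow_pos_of_pos (h0.trans_le r.2.1) _
  have h6 : W' r0 * (ω ^ 2 * SX φ r) = w' r0 * (ω ^ 2 * SX u r) := by
    apply mul_left_cancel₀ h5.ne'
    linear_combination h4
  rw [div_mul_eq_mul_div, eq_div_iff hne]
  linear_combination -h6

theorem spb (POL : PolStmt) (EIG : EigStmt) (ODE : OdeStmt) : SpbStmt := by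
  intro d r0 r1 h D SX hd h0 h1 hO
  obtain ⟨C, hC, ω0, hω0, hode⟩ := ODE (((d : ℝ) - 1) * (d - 3) / 4) r0 r1 h0 h1
  obtain ⟨hsg, hfin, -, -, hpol⟩ := POL d r0 r1 h hd h0 h1
  have hr : 0 < r0 ^ (d - 1) := pow_pos h0 _
  have hq : 0 < C / (sg d * r0 ^ (d - 1)) := by positivity
  refine ⟨C + C / (sg d * r0 ^ (d - 1)), by positivity, ω0, hω0, ?_⟩
  intro ω φ hω hφ0 hφ
  obtain ⟨w, w', hw, hw1, hwe⟩ := EIG d r0 r1 h D SX (ω ^ 2) φ hd h0 h1 hO hφ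
  obtain ⟨⟨m, hm⟩, hb⟩ := hode ω w w' hω hw hw1 (exists_ne hφ0 hφ h0 hwe)
  have hωp : 0 < ω := by linarith
  refine ⟨?_, m, hm.trans ?_⟩
  swap
  · apply div_le_div_of_nonneg_right _ (by positivity)
    linarith
  -- the square of `w`
  have hsq : ∀ r : Ic r0 r1, w r ^ 2 = (r : ℝ) ^ (d - 1) * (ω ^ 2 * SX φ r) ^ 2 := by
    intro r
    have hrp : 0 < (r : ℝ) := h0.trans_le r.2.1
    rw [hwe r, mul_pow, ← Real.rpow_natCast ((r : ℝ) ^ (((d : ℝ) - 1) / 2)) 2,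
      ← Real.rpow_mul hrp.le]
    congr 1
    rw [← Real.rpow_natCast, Nat.cast_sub hd]
    congr 1
    push_cast
    ring
  have hint : ∫ s in r0..r1, w s ^ 2 = (1 / sg d) * ⟪φ, φ⟫_ℝ := by
    have e1 : ⟪φ, φ⟫_ℝ = ∫ s, (ω ^ 2 * SX φ s) ^ 2 ∂(nu d h) := by
      rw [L2.inner_def]
      refine integral_congr_ae ?_
      filter_upwards [hφ] with s hs
      rw [hs]
      simp only [real_inner_self_eq_norm_sq, Real.norm_eq_abs, sq_abs]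
    have hcont : Continuous fun s : Ic r0 r1 => (ω ^ 2 * SX φ s) ^ 2 := by fun_prop
    have e2 := hpol (fun s => (ω ^ 2 * SX φ s) ^ 2) hcont.stronglyMeasurable (Or.inl (by
      obtain ⟨K, hK⟩ := (isCompact_univ (X := Ic r0 r1)).exists_bound_of_continuousOn
        hcont.continuousOn
      exact ⟨K, Eventually.of_forall fun s => hK s (mem_univ s)⟩))
    rw [e1, e2, ← mul_assoc, one_div, inv_mul_cancel₀ hsg.ne', one_mul]
    apply intervalIntegral.integral_congr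
    intro s hs
    rw [uIcc_of_le h] at hs
    have e3 := hsq ⟨s, hs⟩
    simp only at e3 ⊢
    rw [e3, projIcc_of_mem h hs]
  have hnn : (0 : ℝ) ≤ ⟪φ, φ⟫_ℝ := real_inner_self_nonneg
  have hpt : ∀ r : Ic r0 r1, (SX ((ω ^ 2) • φ) r) ^ 2 ≤
      (C + C / (sg d * r0 ^ (d - 1))) * ⟪φ, φ⟫_ℝ := by
    intro r
    rw [map_smul, ContinuousMap.smul_apply, smul_eq_mul]
    have h2 := hb r r.2
    rw [hsq r, hint] at h2
    have h3 : r0 ^ (d - 1) * (ω ^ 2 * SX φ r) ^ 2 ≤ (r : ℝ) ^ (d - 1) * (ω ^ 2 * SX φ r) ^ 2 :=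
      mul_le_mul_of_nonneg_right (pow_le_pow_left₀ h0.le r.2.1 _) (sq_nonneg _)
    have h4 : (ω ^ 2 * SX φ r) ^ 2 ≤ C / (sg d * r0 ^ (d - 1)) * ⟪φ, φ⟫_ℝ := by
      rw [div_mul_eq_mul_div, le_div_iff₀ (by positivity)]
      have h5 := mul_le_mul_of_nonneg_left (h3.trans h2) hsg.le
      calc (ω ^ 2 * SX φ r) ^ 2 * (sg d * r0 ^ (d - 1))
          = sg d * (r0 ^ (d - 1) * (ω ^ 2 * SX φ r) ^ 2) := by ring
        _ ≤ sg d * (C * (1 / sg d * ⟪φ, φ⟫_ℝ)) := h5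
        _ = C * ⟪φ, φ⟫_ℝ := by field_simp
    nlinarith [mul_nonneg hC.le hnn]
  have hB : 0 ≤ (C + C / (sg d * r0 ^ (d - 1))) * ⟪φ, φ⟫_ℝ := by positivity
  have h6 : ‖SX ((ω ^ 2) • φ)‖ ≤ Real.sqrt ((C + C / (sg d * r0 ^ (d - 1))) * ⟪φ, φ⟫_ℝ) := by
    rw [ContinuousMap.norm_le _ (Real.sqrt_nonneg _)]
    intro r
    rw [Real.norm_eq_abs]
    exact Real.abs_le_sqrt (hpt r)
  calc ‖SX ((ω ^ 2) • φ)‖ ^ 2 ≤
      Real.sqrt ((C + C / (sg d * r0 ^ (d - 1))) * ⟪φ, φ⟫_ℝ) ^ 2 :=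
        pow_le_pow_left₀ (norm_nonneg _) h6 2
    _ = _ := Real.sq_sqrt hB

end Pool.Agent.Helper89BE01SPS
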